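import Pool.Agent.Helpers25.TFDWBridge

namespace Pool.Agent.Results.MP_369429_mp.SmallCharge

open Pool.Agent.Helpers25.TFDW

/-- For all constants `A, γ, C_e > 0` and `p > 4/3` there is `Z₀ > 0` such that for all nuclei of
total charge `Z < Z₀` the value `E_α(0) = U` is the infimum of `E_α` on `[0, ∞)`, so that
`λ* = 0 < Z` is an absolute-minimum point. In particular it is not true that every
absolute-minimum point is at least `Z`. -/
theorem result :
    (∀ A γ Ce p : ℝ, 0 < A → 0 < γ → 0 < Ce → 4 / 3 < p →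
      ∃ Z0 : ℝ, 0 < Z0 ∧ ∀ N : Nuclei, N.Z < Z0 →
        Emin A γ Ce p N 0 = (N.U : EReal) ∧ (∀ lam : ℝ, (N.U : EReal) ≤ Emin A γ Ce p N lam) ∧
        IsAbsMin A γ Ce p N 0) ∧
    ¬ (∀ A γ Ce p : ℝ, 0 < A → 0 < γ → 0 < Ce → 4 / 3 < p → ∀ N : Nuclei, ∀ lam : ℝ,
        IsAbsMin A γ Ce p N lam → N.Z ≤ lam) := by
  refine ⟨fun A γ Ce p hA hγ hCe hp => main hA hγ hCe hp, ?_⟩
  intro H
  obtain ⟨Z0, hZ0, hmain⟩ := main (A := 1) (γ := 1) (Ce := 1) (p := 5 / 3) one_pos one_pos one_pos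
    (by norm_num)
  let N : Nuclei :=
    { k := 1
      one_le_k := le_rfl
      R := fun _ => 0
      R_injective := fun _ _ _ => Subsingleton.elim _ _
      z := fun _ => Z0 / 2
      z_pos := fun _ => by positivity }
  have hZ : N.Z = Z0 / 2 := by simp [Nuclei.Z, N]
  have h1 := (hmain N (by rw [hZ]; linarith)).2.2
  have h2 := H 1 1 1 (5 / 3) one_pos one_pos one_pos (by norm_num) N 0 h1
  rw [hZ] at h2
  linarith

end Pool.Agent.Results.MP_369429_mp.SmallCharge
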